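import Pool.Agent.H683.SC.PosStm

/-! # The state sum of a disjoint union -/

set_option autoImplicit false

namespace Pool.Agent.H874.SP

open Pool.Agent.H683.SC

open Classical in
/-- the state sum for vertices `0, ..., m - 1` with the labels `lab` and the adjacency `A` -/
noncomputable def Zg {q : ℕ} (m : ℕ) (lab : Fin m → ℕ) (A : ℕ → ℕ → Prop) (S : ℕ → Fin q → Prop)
    (X : ℤ) : ℤ :=
  ∑ f : Fin m → Option (Fin q),
    if (∀ u v : Fin m, A u v → cmp (f u) (f v)) ∧
      (∀ (v : Fin m) (c : Fin q), f v = some c → S (lab v) c) then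
      ∏ v, (if f v = none then 1 else X) else 0

theorem Zt_eq {q : ℕ} (t : KExp) (S : ℕ → Fin q → Prop) (X : ℤ) :
    Zt t S X = Zg t.labs.length t.labs.get t.Adj S X := rfl

theorem Zg_cast {q m m' : ℕ} (h : m = m') (lab : Fin m → ℕ) (lab' : Fin m' → ℕ)
    (hl : ∀ i, lab' i = lab (Fin.cast h.symm i)) (A : ℕ → ℕ → Prop) (S : ℕ → Fin q → Prop) (X : ℤ) :
    Zg m lab A S X = Zg m' lab' A S X := by
  subst h
  have : lab' = lab := funext fun i => hl i
  rw [this]

theorem Zg_union {q m n : ℕ} (l₁ : Fin m → ℕ) (l₂ : Fin n → ℕ) (A₁ A₂ : ℕ → ℕ → Prop)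
    (S : ℕ → Fin q → Prop) (X : ℤ) :
    Zg (m + n) (Fin.append l₁ l₂)
      (fun u v => (u < m ∧ v < m ∧ A₁ u v) ∨ (m ≤ u ∧ m ≤ v ∧ A₂ (u - m) (v - m))) S X =
      Zg m l₁ A₁ S X * Zg n l₂ A₂ S X := by
  classical
  unfold Zg
  rw [← (Fin.appendEquiv m n).sum_comp, Fintype.sum_prod_type, Finset.sum_mul_sum]
  refine Finset.sum_congr rfl fun g _ => Finset.sum_congr rfl fun h _ => ?_
  have happ : (Fin.appendEquiv m n) (g, h) = Fin.append g h := rfl
  rw [happ]
  -- the conditions
  have hP : ((∀ u v : Fin (m + n), (((u : ℕ) < m ∧ (v : ℕ) < m ∧ A₁ u v) ∨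
        (m ≤ (u : ℕ) ∧ m ≤ (v : ℕ) ∧ A₂ ((u : ℕ) - m) ((v : ℕ) - m))) →
          cmp (Fin.append g h u) (Fin.append g h v)) ∧
      (∀ (v : Fin (m + n)) (c : Fin q), Fin.append g h v = some c → S (Fin.append l₁ l₂ v) c)) ↔
      ((∀ u v : Fin m, A₁ u v → cmp (g u) (g v)) ∧
        (∀ (v : Fin m) (c : Fin q), g v = some c → S (l₁ v) c)) ∧
      ((∀ u v : Fin n, A₂ u v → cmp (h u) (h v)) ∧
        (∀ (v : Fin n) (c : Fin q), h v = some c → S (l₂ v) c)) := by
    constructor
    · rintro ⟨h1, h2⟩
      refine ⟨⟨fun u v huv => ?_, fun v c hv => ?_⟩, fun u v huv => ?_, fun v c hv => ?_⟩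
      · have := h1 (Fin.castAdd n u) (Fin.castAdd n v)
          (Or.inl ⟨by simp, by simp, by simpa using huv⟩)
        simpa only [Fin.append_left] using this
      · have := h2 (Fin.castAdd n v) c (by simpa only [Fin.append_left] using hv)
        simpa only [Fin.append_left] using this
      · have := h1 (Fin.natAdd m u) (Fin.natAdd m v)
          (Or.inr ⟨by simp, by simp, by simpa using huv⟩)
        simpa only [Fin.append_right] using this
      · have := h2 (Fin.natAdd m v) c (by simpa only [Fin.append_right] using hv)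
        simpa only [Fin.append_right] using this
    · rintro ⟨⟨h1, h2⟩, h3, h4⟩
      constructor
      · intro u v
        refine Fin.addCases (fun u' => ?_) (fun u' => ?_) u <;>
        refine Fin.addCases (fun v' => ?_) (fun v' => ?_) v
        · rintro (⟨_, _, k⟩ | ⟨k, _, _⟩)
          · rw [Fin.append_left, Fin.append_left]
            exact h1 u' v' (by simpa using k)
          · have := u'.2
            simp only [Fin.val_castAdd] at k
            omega
        · rintro (⟨_, k, _⟩ | ⟨k, _, _⟩)
          · simp only [Fin.val_natAdd] at k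
            omega
          · have := u'.2
            simp only [Fin.val_castAdd] at k
            omega
        · rintro (⟨k, _, _⟩ | ⟨_, k, _⟩)
          · simp only [Fin.val_natAdd] at k
            omega
          · have := v'.2
            simp only [Fin.val_castAdd] at k
            omega
        · rintro (⟨k, _, _⟩ | ⟨_, _, k⟩)
          · simp only [Fin.val_natAdd] at k
            omega
          · rw [Fin.append_right, Fin.append_right]
            exact h3 u' v' (by simpa using k)
      · intro v
        refine Fin.addCases (fun v' => ?_) (fun v' => ?_) v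
        · intro c
          rw [Fin.append_left, Fin.append_left]
          exact h2 v' c
        · intro c
          rw [Fin.append_right, Fin.append_right]
          exact h4 v' c
  have hprod : ∏ v, (if Fin.append g h v = none then (1 : ℤ) else X) =
      (∏ v, (if g v = none then (1 : ℤ) else X)) * ∏ v, (if h v = none then (1 : ℤ) else X) := by
    rw [Fin.prod_univ_add]
    simp only [Fin.append_left, Fin.append_right]
  by_cases hA : (∀ u v : Fin m, A₁ u v → cmp (g u) (g v)) ∧
        (∀ (v : Fin m) (c : Fin q), g v = some c → S (l₁ v) c)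
  · by_cases hB : (∀ u v : Fin n, A₂ u v → cmp (h u) (h v)) ∧
        (∀ (v : Fin n) (c : Fin q), h v = some c → S (l₂ v) c)
    · rw [if_pos (hP.2 ⟨hA, hB⟩), if_pos hA, if_pos hB]
      convert hprod using 2
    · rw [if_neg (fun k => hB (hP.1 k).2), if_neg hB, mul_zero]
  · rw [if_neg (fun k => hA (hP.1 k).1), if_neg hA, zero_mul]

/-- **S_ZU** -/
theorem ZU : S_ZU := by
  intro q s t S X
  rw [Zt_eq, Zt_eq, Zt_eq, ← Zg_union]
  refine Zg_cast (List.length_append ..) _ _ (fun i => ?_) _ S X
  show Fin.append s.labs.get t.labs.get i = (s.labs ++ t.labs).get _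
  refine Fin.addCases (fun i' => ?_) (fun i' => ?_) i
  · rw [Fin.append_left]
    simp
  · rw [Fin.append_right]
    simp

end Pool.Agent.H874.SP
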